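import Pool.Agent.R598.CR.Main

/-!
# One set with `RT²_n` for every finite `n` and without `CRT`

There are a countable transitive model of ZF and a set `X` in it such that `CRT(X)` fails and
`RT²_n(X)` holds for every `n`. So the inclusion of the `R_n`-finite sets in the CRT-finite sets
can be strict for every `n ≥ 2`, simultaneously. The definitions are in `Pool.Agent.R598.CR.Defs`.
-/

set_option autoImplicit false

namespace Pool.Agent.Results.MP_5f5b92_lc.StrictForAllN

open Pool.Agent.W868 Pool.Agent.R598.CR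

theorem result : ∃ M : Set ZFSet.{0}, M.Countable ∧ IsZF M ∧
    ∃ X ∈ M, ¬ CRT M X ∧ ∀ n : ℕ, 2 ≤ n → RT2 M X n := by
  obtain ⟨M, hc, hM, X, hX, h1, h2⟩ := Pool.Agent.R598.CR.main
  exact ⟨M, hc, hM, X, hX, h1, fun n _ => h2 n⟩

end Pool.Agent.Results.MP_5f5b92_lc.StrictForAllN
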